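import Mathlib

/-!
# Trails and walks: the common exponent in terms of non-intersection probabilities

`c_n` is the number of `n`-step self-avoiding walks and `h_n` the number of `n`-step self-avoiding trails
(no bond twice) on `ℤ^d`.  `c_{2n} / c_n^2` is the probability that two independent walks do not meet,
`h_{2n} / h_n^2` the probability that two independent trails have no bond in common.  Here it is shown that
`c_n ~ A μ^n n^(γ-1)` and `h_n ~ G λ^n n^(γ-1)` with a common `γ` hold if and only if the two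
probabilities are asymptotic to constant multiples of `n^(-(γ-1))` with a common `γ`.

Proof: `log (h_n / λ^n) = ∑_j 2^(-j-1) log (h_m^2 / h_{2m})`, `m = 2^j n`.
-/

set_option autoImplicit false

namespace Pool.Agent.Results.MP_2ab770_pr.TrailsByNonIntersection

open Filter Topology

/-- the `n`-step self-avoiding walks on `ℤ^d` from the origin -/
def Walks (d n : ℕ) : Set (Fin (n + 1) → (Fin d → ℤ)) :=
  {ω | ω 0 = 0 ∧ (∀ i : Fin n, ∑ k : Fin d, |ω i.succ k - ω i.castSucc k| = 1) ∧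
    Function.Injective ω}

/-- the `n`-step self-avoiding trails on `ℤ^d` from the origin: no bond is used twice -/
def Trails (d n : ℕ) : Set (Fin (n + 1) → (Fin d → ℤ)) :=
  {ω | ω 0 = 0 ∧ (∀ i : Fin n, ∑ k : Fin d, |ω i.succ k - ω i.castSucc k| = 1) ∧
    Function.Injective (fun i : Fin n => s(ω i.castSucc, ω i.succ))}

/-! ### the recursion -/

theorem tele (f : ℕ → ℝ) (n k : ℕ) : f n = f (2 ^ k * n) / 2 ^ k +
    ∑ j ∈ Finset.range k, (2 * f (2 ^ j * n) - f (2 * (2 ^ j * n))) / 2 ^ (j + 1) := by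
  induction k with
  | zero => simp
  | succ k ih =>
    rw [Finset.sum_range_succ, ih]
    have e : 2 * (2 ^ k * n) = 2 ^ (k + 1) * n := by rw [pow_succ]; ring
    rw [e]
    have h2 : (2 : ℝ) ^ k ≠ 0 := by positivity
    field_simp
    ring

theorem geo (x y : ℝ) (k : ℕ) : ∑ j ∈ Finset.range k, (x + j * y) / 2 ^ (j + 1) =
    x * (1 - 1 / 2 ^ k) + y * (1 - (k + 1) / 2 ^ k) := by
  induction k with
  | zero => simp
  | succ k ih =>
    rw [Finset.sum_range_succ, ih]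
    have h2 : (2 : ℝ) ^ k ≠ 0 := by positivity
    rw [pow_succ]
    push_cast
    field_simp
    ring

theorem geo_lim (x y : ℝ) : Tendsto (fun k : ℕ => x * (1 - 1 / 2 ^ k) + y * (1 - ((k : ℝ) + 1) / 2 ^ k))
    atTop (𝓝 (x + y)) := by
  have h1 : Tendsto (fun k : ℕ => 1 / (2 : ℝ) ^ k) atTop (𝓝 0) := by
    have := tendsto_pow_atTop_nhds_zero_of_lt_one (r := (1 / 2 : ℝ)) (by norm_num) (by norm_num)
    refine this.congr (fun k => ?_)
    rw [one_div_pow]
  have h2 : Tendsto (fun k : ℕ => (k : ℝ) / (2 : ℝ) ^ k) atTop (𝓝 0) := by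
    have := tendsto_self_mul_const_pow_of_lt_one (r := (1 / 2 : ℝ)) (by norm_num) (by norm_num)
    refine this.congr (fun k => ?_)
    rw [one_div_pow]
    ring
  have h3 : Tendsto (fun k : ℕ => ((k : ℝ) + 1) / (2 : ℝ) ^ k) atTop (𝓝 0) := by
    have := h2.add h1
    rw [add_zero] at this
    refine this.congr (fun k => ?_)
    rw [← add_div]
  have h4 : Tendsto (fun k : ℕ => x * (1 - 1 / 2 ^ k) + y * (1 - ((k : ℝ) + 1) / 2 ^ k))
      atTop (𝓝 (x * (1 - 0) + y * (1 - 0))) :=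
    ((tendsto_const_nhds.sub h1).const_mul x).add ((tendsto_const_nhds.sub h3).const_mul y)
  simpa using h4

theorem sub_lim {f : ℕ → ℝ} (hf : Tendsto (fun n : ℕ => f n / n) atTop (𝓝 0)) {n : ℕ} (hn : 1 ≤ n) :
    Tendsto (fun k : ℕ => f (2 ^ k * n) / 2 ^ k) atTop (𝓝 0) := by
  have hn0 : (n : ℝ) ≠ 0 := by exact_mod_cast (by omega : n ≠ 0)
  have h1 : Tendsto (fun k : ℕ => 2 ^ k * n) atTop atTop := by
    apply tendsto_atTop_mono (f := fun k => k) _ tendsto_id
    intro k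
    have h2 : k < 2 ^ k := Nat.lt_two_pow_self
    calc k ≤ 2 ^ k * 1 := by omega
      _ ≤ 2 ^ k * n := Nat.mul_le_mul_left _ hn
  have h2 := (hf.comp h1).mul_const (n : ℝ)
  rw [zero_mul] at h2
  refine h2.congr (fun k => ?_)
  simp only [Function.comp]
  push_cast
  field_simp

/-! ### the principle -/

theorem key {e w : ℕ → ℝ} (he : Tendsto (fun n : ℕ => e n / n) atTop (𝓝 0)) {N : ℕ} {ε : ℝ}
    (hε : 0 ≤ ε) (hw : ∀ n : ℕ, N ≤ n → ∀ j : ℕ, w (2 ^ j * n) ≤ w n + j * w n)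
    (h : ∀ n : ℕ, N ≤ n → 2 * e n - e (2 * n) ≤ ε * w n) {n : ℕ} (hn : N ≤ n) (hn1 : 1 ≤ n) :
    e n ≤ 2 * (ε * w n) := by
  have h1 : ∀ k : ℕ, e n ≤ e (2 ^ k * n) / 2 ^ k +
      ε * (w n * (1 - 1 / 2 ^ k) + w n * (1 - ((k : ℝ) + 1) / 2 ^ k)) := by
    intro k
    rw [tele e n k, ← geo, Finset.mul_sum]
    apply add_le_add le_rfl
    apply Finset.sum_le_sum
    intro j _
    have h2 : N ≤ 2 ^ j * n := by
      have : 1 ≤ 2 ^ j := Nat.one_le_two_pow
      nlinarith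
    have h3 := h (2 ^ j * n) h2
    have h4 := mul_le_mul_of_nonneg_left (hw n hn j) hε
    rw [mul_div_assoc']
    exact div_le_div_of_nonneg_right (h3.trans h4) (by positivity)
  have h2 := (sub_lim he hn1).add ((geo_lim (w n) (w n)).const_mul ε)
  rw [zero_add] at h2
  have h3 := ge_of_tendsto' h2 h1
  linarith

theorem o_iff {u w : ℕ → ℝ} (hw0 : ∀ᶠ n : ℕ in atTop, 0 < w n) :
    Tendsto (fun n : ℕ => u n / w n) atTop (𝓝 0) ↔
      ∀ ε : ℝ, 0 < ε → ∀ᶠ n : ℕ in atTop, |u n| ≤ ε * w n := by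
  rw [Metric.tendsto_nhds]
  constructor
  · intro h ε hε
    filter_upwards [h ε hε, hw0] with n h1 h2
    rw [Real.dist_eq, sub_zero, abs_div, abs_of_pos h2, div_lt_iff₀ h2] at h1
    exact h1.le
  · intro h ε hε
    filter_upwards [h (ε / 2) (by linarith), hw0] with n h1 h2
    rw [Real.dist_eq, sub_zero, abs_div, abs_of_pos h2, div_lt_iff₀ h2]
    nlinarith

theorem princ {e w : ℕ → ℝ} (he : Tendsto (fun n : ℕ => e n / n) atTop (𝓝 0))
    (hw0 : ∀ᶠ n : ℕ in atTop, 0 < w n)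
    (hw : ∀ᶠ n : ℕ in atTop, ∀ j : ℕ, w (2 ^ j * n) ≤ w n + j * w n) :
    Tendsto (fun n : ℕ => (2 * e n - e (2 * n)) / w n) atTop (𝓝 0) ↔
      Tendsto (fun n : ℕ => e n / w n) atTop (𝓝 0) := by
  rw [o_iff hw0, o_iff hw0]
  constructor
  · intro h ε hε
    obtain ⟨N, hN⟩ := eventually_atTop.1 ((h (ε / 2) (by linarith)).and hw)
    filter_upwards [eventually_ge_atTop N, eventually_ge_atTop 1] with n hn hn1
    have he' : Tendsto (fun n : ℕ => -e n / n) atTop (𝓝 0) := by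
      have := he.neg
      rw [neg_zero] at this
      refine this.congr (fun n => ?_)
      ring
    have h1 := key he (N := N) (ε := ε / 2) (by linarith) (fun n hn => (hN n hn).2)
      (fun n hn => (abs_le.1 (hN n hn).1).2) hn hn1
    have h2 := key (e := fun n => -e n) he' (N := N) (ε := ε / 2) (by linarith)
      (fun n hn => (hN n hn).2) (fun n hn => by
        have := (abs_le.1 (hN n hn).1).1
        linarith) hn hn1
    rw [abs_le]
    constructor <;> linarith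
  · intro h ε hε
    obtain ⟨N, hN⟩ := eventually_atTop.1 ((h (ε / 4) (by linarith)).and hw)
    filter_upwards [eventually_ge_atTop N, hw0] with n hn hn0
    have h1 := (hN n hn).1
    have h2 := (hN (2 * n) (by omega)).1
    have h3 := (hN n hn).2 1
    rw [pow_one, Nat.cast_one, one_mul] at h3
    rw [abs_le] at h1 h2 ⊢
    have h4 : ε / 4 * w (2 * n) ≤ ε / 4 * (w n + w n) :=
      mul_le_mul_of_nonneg_left h3 (by linarith)
    have h5 : 0 < ε * w n := mul_pos hε hn0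
    constructor <;> linarith [h1.1, h1.2, h2.1, h2.2]

/-! ### sequences -/

theorem log_big : Tendsto (fun n : ℕ => Real.log n) atTop atTop :=
  Real.tendsto_log_atTop.comp tendsto_natCast_atTop_atTop

theorem log_lim : Tendsto (fun n : ℕ => Real.log n / n) atTop (𝓝 0) := by
  have h := (Real.tendsto_pow_log_div_mul_add_atTop 1 0 1 one_ne_zero).comp
    tendsto_natCast_atTop_atTop
  refine h.congr (fun n => ?_)
  simp only [Function.comp, pow_one, one_mul, add_zero]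

theorem fekete {a : ℕ → ℕ} (hpos : ∀ n : ℕ, 0 < a n) (hsubm : ∀ m n : ℕ, a (m + n) ≤ a m * a n) :
    ∃ μ : ℝ, 0 < μ ∧ Tendsto (fun n : ℕ => (a n : ℝ) ^ (1 / (n : ℝ))) atTop (𝓝 μ) := by
  have hp : ∀ n : ℕ, (0 : ℝ) < a n := fun n => by exact_mod_cast hpos n
  have h1 : ∀ n : ℕ, (1 : ℝ) ≤ a n := fun n => by exact_mod_cast hpos n
  have hsub : Subadditive (fun n : ℕ => Real.log (a n)) := by
    intro m n
    simp only
    rw [← Real.log_mul (hp m).ne' (hp n).ne']
    apply Real.log_le_log (hp _)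
    exact_mod_cast hsubm m n
  have hbdd : BddBelow (Set.range (fun n : ℕ => Real.log (a n) / n)) := by
    refine ⟨0, ?_⟩
    rintro x ⟨n, rfl⟩
    exact div_nonneg (Real.log_nonneg (h1 n)) (Nat.cast_nonneg n)
  have hlim := hsub.tendsto_lim hbdd
  refine ⟨Real.exp hsub.lim, Real.exp_pos _, ?_⟩
  have h2 := (Real.continuous_exp.tendsto _).comp hlim
  refine h2.congr (fun n => ?_)
  simp only [Function.comp]
  rw [Real.rpow_def_of_pos (hp n)]
  congr 1
  ring

theorem f_lim {a : ℕ → ℕ} (hpos : ∀ n : ℕ, 0 < a n) {μ : ℝ} (hμ : 0 < μ)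
    (hlim : Tendsto (fun n : ℕ => (a n : ℝ) ^ (1 / (n : ℝ))) atTop (𝓝 μ)) :
    Tendsto (fun n : ℕ => Real.log ((a n : ℝ) / μ ^ n) / n) atTop (𝓝 0) := by
  have h1 : Tendsto (fun n : ℕ => Real.log ((a n : ℝ) ^ (1 / (n : ℝ))) - Real.log μ) atTop
      (𝓝 (Real.log μ - Real.log μ)) :=
    ((Real.continuousAt_log hμ.ne').tendsto.comp hlim).sub tendsto_const_nhds
  rw [sub_self] at h1
  refine h1.congr' ?_
  filter_upwards [eventually_ge_atTop 1] with n hn
  have hn0 : (n : ℝ) ≠ 0 := by exact_mod_cast (by omega : n ≠ 0)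
  have h2 : (0 : ℝ) < a n := by exact_mod_cast hpos n
  rw [Real.log_rpow h2, Real.log_div h2.ne' (pow_pos hμ n).ne', Real.log_pow]
  field_simp

theorem log_iff {u : ℕ → ℝ} (hu : ∀ᶠ n : ℕ in atTop, 0 < u n) {A : ℝ} (hA : 0 < A) :
    Tendsto (fun n : ℕ => Real.log (u n) - Real.log A) atTop (𝓝 0) ↔ Tendsto u atTop (𝓝 A) := by
  rw [tendsto_sub_nhds_zero_iff]
  constructor
  · intro h
    have h1 := (Real.continuous_exp.tendsto _).comp h
    rw [Real.exp_log hA] at h1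
    refine h1.congr' ?_
    filter_upwards [hu] with n h2
    simp only [Function.comp]
    rw [Real.exp_log h2]
  · intro h
    exact (Real.continuousAt_log hA.ne').tendsto.comp h

/-- the converse half -/
theorem seq_conv {a : ℕ → ℕ} (hpos : ∀ n : ℕ, 0 < a n) {μ : ℝ} (hμ : 0 < μ)
    (hlim : Tendsto (fun n : ℕ => (a n : ℝ) ^ (1 / (n : ℝ))) atTop (𝓝 μ)) {b : ℝ} (hb : 0 < b)
    (g : ℝ) (hr : Tendsto (fun n : ℕ => (a (2 * n) : ℝ) / (a n : ℝ) ^ 2 * (n : ℝ) ^ g) atTop (𝓝 b)) :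
    Tendsto (fun n : ℕ => (a n : ℝ) / (μ ^ n * (n : ℝ) ^ g)) atTop (𝓝 (2 ^ g / b)) := by
  have hp : ∀ n : ℕ, (0 : ℝ) < a n := fun n => by exact_mod_cast hpos n
  have hA : (0 : ℝ) < 2 ^ g / b := by positivity
  have he : Tendsto (fun n : ℕ => (Real.log ((a n : ℝ) / μ ^ n) - (g * Real.log n +
      Real.log (2 ^ g / b))) / n) atTop (𝓝 0) := by
    have h1 : Tendsto (fun n : ℕ => Real.log (2 ^ g / b) / (n : ℝ)) atTop (𝓝 0) :=
      tendsto_const_nhds.div_atTop tendsto_natCast_atTop_atTop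
    have := (f_lim hpos hμ hlim).sub ((log_lim.const_mul g).add h1)
    rw [mul_zero, add_zero, sub_zero] at this
    refine this.congr (fun n => ?_)
    ring
  have hpr := princ (w := fun _ => 1) he (Eventually.of_forall (fun _ => one_pos))
    (Eventually.of_forall (fun n j => by
      have : (0 : ℝ) ≤ j := Nat.cast_nonneg j
      linarith))
  have hu : ∀ᶠ n : ℕ in atTop, (0 : ℝ) < (n : ℝ) := by
    filter_upwards [eventually_ge_atTop 1] with n h2
    exact_mod_cast h2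
  have hu1 : ∀ᶠ n : ℕ in atTop, 0 < (a n : ℝ) / (μ ^ n * (n : ℝ) ^ g) := by
    filter_upwards [hu] with n h1
    have := hp n
    positivity
  have hu2 : ∀ᶠ n : ℕ in atTop, 0 < (a (2 * n) : ℝ) / (a n : ℝ) ^ 2 * (n : ℝ) ^ g := by
    filter_upwards [hu] with n h1
    have := hp n
    have := hp (2 * n)
    positivity
  rw [← log_iff hu1 hA]
  rw [← log_iff hu2 hb] at hr
  have a1 : Tendsto (fun n : ℕ => Real.log ((a n : ℝ) / (μ ^ n * (n : ℝ) ^ g)) -
      Real.log (2 ^ g / b)) atTop (𝓝 0) ↔ Tendsto (fun n : ℕ => (Real.log ((a n : ℝ) / μ ^ n) -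
      (g * Real.log n + Real.log (2 ^ g / b))) / 1) atTop (𝓝 0) := by
    apply tendsto_congr'
    filter_upwards [hu] with n h1
    have h3 := hp n
    have h4 := pow_pos hμ n
    rw [Real.log_div h3.ne' (by positivity), Real.log_div h3.ne' h4.ne',
      Real.log_mul h4.ne' (by positivity), Real.log_rpow h1]
    ring
  rw [a1, ← hpr]
  have h0 := hr.neg
  rw [neg_zero] at h0
  refine h0.congr' ?_
  filter_upwards [hu] with n h1
  have h3 := hp n
  have h4 := hp (2 * n)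
  have h5 := pow_pos hμ n
  have h6 := pow_pos hμ (2 * n)
  rw [Real.log_mul (by positivity) (by positivity), Real.log_div h4.ne' (by positivity),
    Real.log_div h3.ne' h5.ne', Real.log_div h4.ne' h6.ne', Real.log_div (by positivity) hb.ne',
    Real.log_rpow h1, Real.log_rpow (by norm_num), Real.log_pow, Real.log_pow, Real.log_pow]
  have e2 : Real.log ((2 * n : ℕ) : ℝ) = Real.log 2 + Real.log n := by
    push_cast
    rw [Real.log_mul (by norm_num) h1.ne']
  rw [e2]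
  push_cast
  ring

/-- the direct half -/
theorem seq_dir {a : ℕ → ℕ} (hpos : ∀ n : ℕ, 0 < a n) {μ : ℝ} (hμ : 0 < μ) {A : ℝ} (hA : 0 < A)
    (g : ℝ) (h : Tendsto (fun n : ℕ => (a n : ℝ) / (μ ^ n * (n : ℝ) ^ g)) atTop (𝓝 A)) :
    Tendsto (fun n : ℕ => (a (2 * n) : ℝ) / (a n : ℝ) ^ 2 * (n : ℝ) ^ g) atTop (𝓝 (2 ^ g / A)) := by
  have h2 : Tendsto (fun n : ℕ => 2 * n) atTop atTop :=
    tendsto_atTop_mono (f := fun n => n) (fun n => by omega) tendsto_id
  have h3 := (((h.comp h2).div (h.pow 2) (by positivity)).const_mul ((2 : ℝ) ^ g))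
  have e : (2 : ℝ) ^ g * (A / A ^ 2) = 2 ^ g / A := by
    field_simp
  rw [e] at h3
  refine h3.congr' ?_
  filter_upwards [eventually_ge_atTop 1] with n hn
  have hn0 : (0 : ℝ) < n := by exact_mod_cast hn
  have h4 : (0 : ℝ) < a n := by exact_mod_cast hpos n
  show (2 : ℝ) ^ g * ((a (2 * n) : ℝ) / (μ ^ (2 * n) * ((2 * n : ℕ) : ℝ) ^ g) /
    ((a n : ℝ) / (μ ^ n * (n : ℝ) ^ g)) ^ 2) = _
  push_cast
  rw [Real.mul_rpow (by norm_num) hn0.le]
  have h5 : (0 : ℝ) < (2 : ℝ) ^ g := by positivity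
  have h6 : (0 : ℝ) < (n : ℝ) ^ g := by positivity
  have h7 := pow_pos hμ n
  rw [show μ ^ (2 * n) = (μ ^ n) ^ 2 by rw [← pow_mul, mul_comm]]
  field_simp

/-! ### walks and trails -/

theorem fin_path (d n : ℕ) : {ω : Fin (n + 1) → (Fin d → ℤ) | ω 0 = 0 ∧
    (∀ i : Fin n, ∑ k : Fin d, |ω i.succ k - ω i.castSucc k| = 1)}.Finite := by
  apply Set.Finite.subset (Set.finite_Icc (fun _ _ => -(n : ℤ)) (fun _ _ => (n : ℤ)))
  rintro ω ⟨h1, h2⟩
  have h3 : ∀ m : ℕ, ∀ hm : m < n + 1, ∀ k : Fin d, |ω ⟨m, hm⟩ k| ≤ m := by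
    intro m
    induction m with
    | zero =>
      intro hm k
      have : (⟨0, hm⟩ : Fin (n + 1)) = 0 := rfl
      rw [this, h1]
      simp
    | succ m ih =>
      intro hm k
      have h4 := ih (by omega) k
      have h5 := h2 ⟨m, by omega⟩
      have h6 : |ω (Fin.succ ⟨m, by omega⟩) k - ω (Fin.castSucc ⟨m, by omega⟩) k| ≤ 1 := by
        rw [← h5]
        exact Finset.single_le_sum
          (f := fun k => |ω (Fin.succ ⟨m, by omega⟩) k - ω (Fin.castSucc ⟨m, by omega⟩) k|)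
          (fun _ _ => abs_nonneg _) (Finset.mem_univ k)
      have e1 : (Fin.succ ⟨m, by omega⟩ : Fin (n + 1)) = ⟨m + 1, hm⟩ := rfl
      have e2 : (Fin.castSucc ⟨m, by omega⟩ : Fin (n + 1)) = ⟨m, by omega⟩ := rfl
      rw [e1, e2] at h6
      rw [abs_le] at h4 h6 ⊢
      push_cast
      constructor <;> linarith [h4.1, h4.2, h6.1, h6.2]
  rw [Set.mem_Icc]
  constructor <;> intro i k
  · have := (abs_le.1 (h3 i.1 i.2 k)).1
    have h4 : (i.1 : ℤ) ≤ n := by exact_mod_cast (by omega : i.1 ≤ n)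
    linarith
  · have := (abs_le.1 (h3 i.1 i.2 k)).2
    have h4 : (i.1 : ℤ) ≤ n := by exact_mod_cast (by omega : i.1 ≤ n)
    linarith

theorem fin_W (d n : ℕ) : (Walks d n).Finite :=
  (fin_path d n).subset (fun _ h => ⟨h.1, h.2.1⟩)

theorem fin_T (d n : ℕ) : (Trails d n).Finite :=
  (fin_path d n).subset (fun _ h => ⟨h.1, h.2.1⟩)

theorem W_sub_T (d n : ℕ) : Walks d n ⊆ Trails d n := by
  rintro ω ⟨h1, h2, h3⟩
  refine ⟨h1, h2, fun i j hij => ?_⟩
  simp only [Sym2.eq_iff] at hij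
  rcases hij with ⟨h4, -⟩ | ⟨h4, h5⟩
  · exact Fin.castSucc_injective _ (h3 h4)
  · have h6 := congrArg Fin.val (h3 h4)
    have h7 := congrArg Fin.val (h3 h5)
    simp only [Fin.val_castSucc, Fin.val_succ] at h6 h7
    omega

theorem W_pos (d : ℕ) (hd : 1 ≤ d) (n : ℕ) : 0 < (Walks d n).ncard := by
  rw [Set.ncard_pos (fin_W d n)]
  refine ⟨fun i k => if k = (⟨0, hd⟩ : Fin d) then (i.1 : ℤ) else 0, ?_, fun i => ?_, fun i j hij => ?_⟩
  · funext k
    simp
  · rw [Finset.sum_eq_single (⟨0, hd⟩ : Fin d)]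
    · simp
    · intro k _ hk
      simp [hk]
    · intro h
      exact absurd (Finset.mem_univ _) h
  · have := congrFun hij ⟨0, hd⟩
    simp only [if_true] at this
    exact Fin.ext (by exact_mod_cast this)

theorem T_pos (d : ℕ) (hd : 1 ≤ d) (n : ℕ) : 0 < (Trails d n).ncard :=
  (W_pos d hd n).trans_le (Set.ncard_le_ncard (W_sub_T d n) (fin_T d n))

/-- the two parts of a path -/
def cut (d m n : ℕ) (w : Fin (m + n + 1) → (Fin d → ℤ)) :
    (Fin (m + 1) → (Fin d → ℤ)) × (Fin (n + 1) → (Fin d → ℤ)) :=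
  (fun i => w ⟨i.1, by omega⟩, fun j => w ⟨m + j.1, by omega⟩ - w ⟨m, by omega⟩)

theorem cut_inj (d m n : ℕ) : Function.Injective (cut d m n) := by
  intro w w' h
  unfold cut at h
  rw [Prod.mk.injEq] at h
  obtain ⟨h1, h2⟩ := h
  funext i
  rcases Nat.lt_or_ge i.1 (m + 1) with h3 | h3
  · exact congrFun h1 ⟨i.1, h3⟩
  · have h4 := congrFun h2 ⟨i.1 - m, by omega⟩
    have h5 := congrFun h1 ⟨m, by omega⟩
    simp only at h4 h5
    rw [h5] at h4
    have h7 := sub_left_injective h4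
    have h6 : (⟨m + (i.1 - m), by omega⟩ : Fin (m + n + 1)) = i := Fin.ext (by simp only; omega)
    rw [h6] at h7
    exact h7

theorem W_submul (d m n : ℕ) : (Walks d (m + n)).ncard ≤ (Walks d m).ncard * (Walks d n).ncard := by
  rw [← Set.ncard_prod]
  apply Set.ncard_le_ncard_of_injOn (cut d m n) _ (cut_inj d m n).injOn
    ((fin_W d m).prod (fin_W d n))
  rintro w ⟨h1, h2, h3⟩
  refine ⟨⟨h1, fun i => h2 ⟨i.1, by omega⟩, fun i j hij => ?_⟩,
    ⟨sub_self _, fun i => ?_, fun i j hij => ?_⟩⟩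
  · exact Fin.ext (congrArg Fin.val (h3 hij) : _)
  · have := h2 ⟨m + i.1, by omega⟩
    simp only [cut, Pi.sub_apply, sub_sub_sub_cancel_right]
    exact this
  · have h4 := congrArg Fin.val (h3 (sub_left_injective hij))
    simp only at h4
    exact Fin.ext (by omega)

theorem T_submul (d m n : ℕ) :
    (Trails d (m + n)).ncard ≤ (Trails d m).ncard * (Trails d n).ncard := by
  rw [← Set.ncard_prod]
  apply Set.ncard_le_ncard_of_injOn (cut d m n) _ (cut_inj d m n).injOn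
    ((fin_T d m).prod (fin_T d n))
  rintro w ⟨h1, h2, h3⟩
  refine ⟨⟨h1, fun i => h2 ⟨i.1, by omega⟩, fun i j hij => ?_⟩,
    ⟨sub_self _, fun i => ?_, fun i j hij => ?_⟩⟩
  · have h4 := @h3 ⟨i.1, by omega⟩ ⟨j.1, by omega⟩ hij
    exact Fin.ext (congrArg Fin.val h4 : _)
  · have := h2 ⟨m + i.1, by omega⟩
    simp only [cut, Pi.sub_apply, sub_sub_sub_cancel_right]
    exact this
  · have h4 : (⟨m + i.1, by omega⟩ : Fin (m + n)) = ⟨m + j.1, by omega⟩ := by
      apply h3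
      simp only [cut, Sym2.eq_iff] at hij
      simp only [Sym2.eq_iff]
      rcases hij with ⟨h5, h6⟩ | ⟨h5, h6⟩
      · exact Or.inl ⟨sub_left_injective h5, sub_left_injective h6⟩
      · exact Or.inr ⟨sub_left_injective h5, sub_left_injective h6⟩
    have h5 := congrArg Fin.val h4
    simp only at h5
    exact Fin.ext (by omega)

/-- **Theorem.** Let `d ≥ 1`; `c_n`, `h_n` the numbers of `n`-step self-avoiding walks and trails.
(1) `c_n ~ A μ^n n^(γ-1)` and `h_n ~ G λ^n n^(γ-1)` with common `γ`, for some `μ, λ, A, G > 0`, if and only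
if `c_{2n} / c_n^2 ~ a n^(-(γ-1))` and `h_{2n} / h_n^2 ~ b n^(-(γ-1))` with common `γ`, for some `a, b > 0`.
(2) `λ = lim h_n^(1/n) > 0` exists, and for all real `g` and `b > 0`:
`h_{2n} / h_n^2 ~ b n^(-g)` if and only if `h_n ~ (2^g / b) λ^n n^g`. -/
theorem result (d : ℕ) (hd : 1 ≤ d) :
    ((∃ μ lam γ A G : ℝ, 0 < μ ∧ 0 < lam ∧ 0 < A ∧ 0 < G ∧
        Tendsto (fun n : ℕ => ((Walks d n).ncard : ℝ) / (μ ^ n * (n : ℝ) ^ (γ - 1))) atTop (𝓝 A) ∧
        Tendsto (fun n : ℕ => ((Trails d n).ncard : ℝ) / (lam ^ n * (n : ℝ) ^ (γ - 1))) atTop (𝓝 G)) ↔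
      (∃ γ a b : ℝ, 0 < a ∧ 0 < b ∧
        Tendsto (fun n : ℕ => ((Walks d (2 * n)).ncard : ℝ) / ((Walks d n).ncard : ℝ) ^ 2 *
          (n : ℝ) ^ (γ - 1)) atTop (𝓝 a) ∧
        Tendsto (fun n : ℕ => ((Trails d (2 * n)).ncard : ℝ) / ((Trails d n).ncard : ℝ) ^ 2 *
          (n : ℝ) ^ (γ - 1)) atTop (𝓝 b))) ∧
    (∃ lam : ℝ, 0 < lam ∧
      Tendsto (fun n : ℕ => ((Trails d n).ncard : ℝ) ^ (1 / (n : ℝ))) atTop (𝓝 lam) ∧
      ∀ g b : ℝ, 0 < b →
        (Tendsto (fun n : ℕ => ((Trails d (2 * n)).ncard : ℝ) / ((Trails d n).ncard : ℝ) ^ 2 *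
            (n : ℝ) ^ g) atTop (𝓝 b) ↔
          Tendsto (fun n : ℕ => ((Trails d n).ncard : ℝ) / (lam ^ n * (n : ℝ) ^ g)) atTop
            (𝓝 (2 ^ g / b)))) := by
  obtain ⟨μ, hμ, hμl⟩ := fekete (a := fun n => (Walks d n).ncard) (W_pos d hd) (W_submul d)
  obtain ⟨lam, hlam, hlaml⟩ := fekete (a := fun n => (Trails d n).ncard) (T_pos d hd) (T_submul d)
  refine ⟨⟨?_, ?_⟩, lam, hlam, hlaml, fun g b hb => ⟨?_, ?_⟩⟩
  · rintro ⟨μ', lam', γ, A, G, h1, h2, h3, h4, h5, h6⟩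
    exact ⟨γ, 2 ^ (γ - 1) / A, 2 ^ (γ - 1) / G, by positivity, by positivity,
      seq_dir (a := fun n => (Walks d n).ncard) (W_pos d hd) h1 h3 _ h5,
      seq_dir (a := fun n => (Trails d n).ncard) (T_pos d hd) h2 h4 _ h6⟩
  · rintro ⟨γ, a, b, h1, h2, h3, h4⟩
    exact ⟨μ, lam, γ, 2 ^ (γ - 1) / a, 2 ^ (γ - 1) / b, hμ, hlam, by positivity, by positivity,
      seq_conv (a := fun n => (Walks d n).ncard) (W_pos d hd) hμ hμl h1 _ h3,
      seq_conv (a := fun n => (Trails d n).ncard) (T_pos d hd) hlam hlaml h2 _ h4⟩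
  · exact seq_conv (a := fun n => (Trails d n).ncard) (T_pos d hd) hlam hlaml hb g
  · intro h
    have h1 := seq_dir (a := fun n => (Trails d n).ncard) (T_pos d hd) hlam
      (show (0 : ℝ) < 2 ^ g / b by positivity) g h
    have e : (2 : ℝ) ^ g / (2 ^ g / b) = b := by
      have : (0 : ℝ) < 2 ^ g := by positivity
      field_simp
    rw [e] at h1
    exact h1

end Pool.Agent.Results.MP_2ab770_pr.TrailsByNonIntersection
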